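import Pool.Agent.H545R3.FanFinal

/-!
# A smooth endpoint-generated fan which is not endpoint-homogeneous

For `X = {0, 1/3, 2/3}` there is a smooth `X`-EPG fan (a subspace of the plane) which is not
endpoint-homogeneous: two smooth `X`-EPG fans glued together at their tops, one in which the
second derived set of the set of endpoints is contained in the one-point set of the top, and one
in which every blade contains another point of the second derived set of the endpoints. The two
pieces are the fans constructed in `Pool/Agent/H545R3`.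

The definitions (`IsArc`, `IsSubcontinuum`, `HereditarilyUnicoherent`, `IsRamification`, `IsFan`,
`IsEndpoint`, `IsSeg`, `IsSmooth`, `EndpointHomogeneous`, `IsEPG`) are in
`Pool/Agent/H545R3/FanDefs.lean`.
-/

set_option autoImplicit false

namespace Pool.Agent.Results.MP_0958cc_gt.NotHomogeneous

open Set Topology Filter Pool.Agent.H545R3.Fan

/-! ### Gluing two plane fans at the tops -/

/-- The sequence without its first digit. -/
def tl (c : Cs) : Cs := fun n => c (n + 1)

/-- The sequence with the first digit `b` followed by `c`. -/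
def cn (b : Bool) (c : Cs) : Cs := fun n => Nat.casesOn n b c

@[simp] lemma cn_zero (b : Bool) (c : Cs) : cn b c 0 = b := rfl
@[simp] lemma tl_cn (b : Bool) (c : Cs) : tl (cn b c) = c := rfl
lemma cn_tl (c : Cs) : cn (c 0) (tl c) = c := by
  funext n
  cases n <;> rfl

lemma cn_cont (b : Bool) : Continuous (cn b) := by
  apply continuous_pi
  intro n
  cases n with
  | zero => exact continuous_const
  | succ n => exact continuous_apply n

lemma xc_cn (b : Bool) (c : Cs) : xc (cn b c) = cond b 1 0 + 1 / 3 * xc c := by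
  unfold xc
  rw [Cardinal.cantorFunction_succ _ (by norm_num) (by norm_num)]
  rfl

variable {K : Bool → Set (Cs × ℝ)}

/-- The region which consists of a copy of `K false` and a copy of `K true`. -/
def Kw (K : Bool → Set (Cs × ℝ)) : Set (Cs × ℝ) := {q | (tl q.1, q.2) ∈ K (q.1 0)}

lemma mem_Kw_cn (b : Bool) (c : Cs) (s : ℝ) : (cn b c, s) ∈ Kw K ↔ (c, s) ∈ K b := Iff.rfl

lemma good_Kw (hK : ∀ b, Good (K b)) : Good (Kw K) where
  comp := by
    have h1 : Kw K = ⋃ b : Bool, (fun q : Cs × ℝ => (cn b q.1, q.2)) '' K b := by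
      ext ⟨c, s⟩
      simp only [mem_iUnion, mem_image, Prod.mk.injEq, Prod.exists]
      constructor
      · intro h
        exact ⟨c 0, tl c, s, h, cn_tl c, rfl⟩
      · rintro ⟨b, c', s', h, rfl, rfl⟩
        exact h
    rw [h1]
    apply isCompact_iUnion
    intro b
    exact (hK b).comp.image (((cn_cont b).comp continuous_fst).prodMk continuous_snd)
  nonneg := fun q hq => (hK (q.1 0)).nonneg (tl q.1, q.2) hq
  down := fun c s s' h h0 hs => (hK _).down _ _ _ h h0 hs
  zero := fun c => (hK _).zero _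
  three := by
    obtain ⟨c₁, c₂, c₃, s₁, s₂, s₃, h12, h13, h23, p1, p2, p3, k1, k2, k3⟩ := (hK false).three
    have inj : ∀ c d : Cs, c ≠ d → cn false c ≠ cn false d := fun c d h he =>
      h (by have := congrArg tl he; simpa using this)
    exact ⟨cn false c₁, cn false c₂, cn false c₃, s₁, s₂, s₃, inj _ _ h12, inj _ _ h13,
      inj _ _ h23, p1, p2, p3, k1, k2, k3⟩

/-- The linear maps of the plane which move the two fans to their places. -/
noncomputable def Lb (b : Bool) (p : ℝ × ℝ) : ℝ × ℝ := (cond b 1 0 * p.2 + 1 / 3 * p.1, p.2)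

lemma Lb_cont (b : Bool) : Continuous (Lb b) := by unfold Lb; fun_prop

lemma Lb_inj (b : Bool) : Function.Injective (Lb b) := by
  intro p q h
  unfold Lb at h
  rw [Prod.mk.injEq] at h
  obtain ⟨h1, h2⟩ := h
  rw [h2] at h1
  refine Prod.ext ?_ h2
  linarith

lemma Lb_pr (b : Bool) (c : Cs) (s : ℝ) : Lb b (pr (c, s)) = pr (cn b c, s) := by
  unfold Lb pr
  simp only
  rw [xc_cn]
  refine Prod.ext ?_ rfl
  simp only
  ring

/-- The embedding of the fan of `K b`. -/
noncomputable def ib (b : Bool) (p : Fan (K b)) : Fan (Kw K) := ⟨Lb b p, by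
  obtain ⟨q, hq, hqp⟩ := p.2
  refine ⟨(cn b q.1, q.2), hq, ?_⟩
  rw [← Lb_pr, ← hqp]⟩

lemma ib_pt (b : Bool) {c : Cs} {s : ℝ} (h : (c, s) ∈ K b) :
    ib b (pt c s h) = pt (K := Kw K) (cn b c) s h := Subtype.ext (Lb_pr b c s)

lemma ib_cont (b : Bool) : Continuous (ib (K := K) b) :=
  ((Lb_cont b).comp continuous_subtype_val).subtype_mk _

lemma ib_inj (b : Bool) : Function.Injective (ib (K := K) b) := by
  intro p q h
  exact Subtype.ext (Lb_inj b (congrArg Subtype.val h))

lemma ib_top (hK : ∀ b, Good (K b)) (b : Bool) : ib b (top (hK b)) = top (good_Kw hK) := by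
  apply Subtype.ext
  show Lb b 0 = 0
  unfold Lb
  simp

lemma pt_eq_ib {c : Cs} {s : ℝ} (h : (c, s) ∈ Kw K) (h' : (tl c, s) ∈ K (c 0)) :
    pt c s h = ib (c 0) (pt (tl c) s h') := by
  apply Subtype.ext
  show pr (c, s) = Lb (c 0) (pr (tl c, s))
  rw [Lb_pr, cn_tl]

lemma exists_ib (hK : ∀ b, Good (K b)) (p : Fan (Kw K)) : ∃ b q, p = ib (K := K) b q := by
  obtain ⟨c, s, h, hs, rfl⟩ := repr (good_Kw hK) p
  exact ⟨_, _, pt_eq_ib h h⟩

lemma ib_closed (hK : ∀ b, Good (K b)) (b : Bool) : IsClosedEmbedding (ib (K := K) b) := by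
  have : CompactSpace (Fan (K b)) := isCompact_iff_compactSpace.1 (fan_compact (hK b))
  exact (ib_cont b).isClosedEmbedding (ib_inj b)

/-- The two pieces meet only at the top. -/
lemma ib_disj (hK : ∀ b, Good (K b)) {b b' : Bool} (hb : b ≠ b') {p : Fan (K b)}
    {p' : Fan (K b')} (h : ib b p = ib b' p') : ib b p = top (good_Kw hK) := by
  obtain ⟨c, s, hc, hs, rfl⟩ := repr (hK b) p
  obtain ⟨c', s', hc', hs', rfl⟩ := repr (hK b') p'
  rw [ib_pt, ib_pt] at h
  rcases hs.eq_or_lt with h0 | h0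
  · subst h0
    rw [ib_pt]
    exact pt_zero (good_Kw hK) _
  · exfalso
    have := congrFun (pt_inj h0.ne' h).1 0
    exact hb this

lemma endpoint_ib (hK : ∀ b, Good (K b)) (b : Bool) (p : Fan (K b)) :
    IsEndpoint (ib b p) ↔ IsEndpoint p := by
  rw [endpoint_iff (good_Kw hK), endpoint_iff (hK b)]
  constructor
  · rintro ⟨c, s, h, hs, htip, he⟩
    obtain ⟨c', s', h', hs', rfl⟩ := repr (hK b) p
    rw [ib_pt] at he
    obtain ⟨h1, h2⟩ := pt_inj hs.ne' he.symm
    subst h2
    refine ⟨c', s, h', hs, fun u hu => htip u ?_, rfl⟩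
    rw [h1]; exact hu
  · rintro ⟨c, s, h, hs, htip, rfl⟩
    exact ⟨cn b c, s, h, hs, fun u hu => htip u hu, ib_pt b h⟩

/-- Gluing preserves the property EPG if `0 ∈ Z`. -/
theorem epg_glue (hK : ∀ b, Good (K b)) {Z : Set unitInterval} (h0Z : (0 : unitInterval) ∈ Z)
    (hE : ∀ b, IsEPG (top (hK b)) Z) : IsEPG (top (good_Kw hK)) Z := by
  intro B e he hB
  have he0 := he
  obtain ⟨c, s, h, hs, htip, rfl⟩ := (endpoint_iff (good_Kw hK) e).1 he
  have hBe := arc_unique (good_Kw hK) hs h hB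
  have h' : (tl c, s) ∈ K (c 0) := h
  rw [pt_eq_ib h h', endpoint_ib hK] at he0
  obtain ⟨B', hB'⟩ : ∃ B' : Set (Fan (K (c 0))),
      B' = Subtype.val ⁻¹' ((fun u => pr (tl c, u)) '' Icc 0 s) := ⟨_, rfl⟩
  have hBa : IsArc B' (top (hK (c 0))) (pt (tl c) s h') := by
    rw [hB']; exact blade_isArc (hK (c 0)) hs h'
  obtain ⟨φ, φ0, φ1, φZ⟩ := hE (c 0) _ _ he0 hBa
  have himg : ib (c 0) '' B' = B := by
    rw [hBe, hB']
    ext p
    constructor
    · rintro ⟨q, ⟨u, hu, hq⟩, rfl⟩
      refine ⟨u, hu, ?_⟩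
      show pr (c, u) = Lb (c 0) q
      rw [← hq]
      simp only
      rw [Lb_pr, cn_tl]
    · rintro ⟨u, hu, hp⟩
      have hm : (tl c, u) ∈ K (c 0) := (hK _).down _ s _ h' hu.1 hu.2
      refine ⟨pt (tl c) u hm, ⟨u, hu, rfl⟩, ?_⟩
      apply Subtype.ext
      rw [← hp]
      show Lb (c 0) (pr (tl c, u)) = pr (c, u)
      rw [Lb_pr, cn_tl]
  set f : unitInterval → Fan (Kw K) := fun t => ib (c 0) (φ t) with hf
  have hfc : Continuous f := (ib_cont _).comp (continuous_subtype_val.comp φ.continuous)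
  have hfi : Function.Injective f :=
    (ib_inj _).comp (Subtype.val_injective.comp φ.injective)
  have hfr : Set.range f = B := by
    rw [← himg]
    ext p
    constructor
    · rintro ⟨t, rfl⟩
      exact ⟨φ t, (φ t).2, rfl⟩
    · rintro ⟨q, hq, rfl⟩
      obtain ⟨t, ht⟩ := φ.surjective ⟨q, hq⟩
      refine ⟨t, ?_⟩
      show ib (c 0) (φ t) = ib (c 0) q
      rw [ht]
  have hemb : IsEmbedding f := (hfc.isClosedEmbedding hfi).isEmbedding
  refine ⟨hemb.toHomeomorph.trans (Homeomorph.setCongr hfr), ?_, ?_, ?_⟩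
  · show ib (c 0) (φ 0) = top (good_Kw hK)
    rw [φ0, ib_top]
  · show ib (c 0) (φ 1) = pt c s h
    rw [φ1, pt_eq_ib h h']
  · have hcoe : (fun z => (((hemb.toHomeomorph.trans (Homeomorph.setCongr hfr)) z : B) :
        Fan (Kw K))) = f := rfl
    rw [hcoe]
    have hfZ : f '' Z = ib (c 0) '' (B' ∩ closure ({e' | IsEndpoint e'} \ B')) := by
      rw [← φZ, image_image]
    rw [hfZ]
    apply subset_antisymm
    · rintro _ ⟨q, ⟨hq1, hq2⟩, rfl⟩
      refine ⟨himg ▸ ⟨q, hq1, rfl⟩, ?_⟩
      have h1 := image_closure_subset_closure_image (ib_cont (K := K) (c 0))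
        (s := ({e' | IsEndpoint e'} \ B'))
      refine closure_mono ?_ (h1 ⟨q, hq2, rfl⟩)
      rintro _ ⟨x, ⟨hx1, hx2⟩, rfl⟩
      refine ⟨(endpoint_ib hK _ x).2 hx1, ?_⟩
      rw [← himg]
      rintro ⟨y, hy, hyx⟩
      exact hx2 (ib_inj _ hyx ▸ hy)
    · rintro p ⟨hpB, hpc⟩
      have hsub : ({e' : Fan (Kw K) | IsEndpoint e'} \ B) ⊆
          ib (c 0) '' ({e' | IsEndpoint e'} \ B') ∪ Set.range (ib (K := K) (!(c 0))) := by
        rintro x ⟨hx1, hx2⟩
        obtain ⟨b, q, rfl⟩ := exists_ib hK x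
        by_cases hb : b = c 0
        · subst hb
          left
          refine ⟨q, ⟨(endpoint_ib hK _ q).1 hx1, fun hq => hx2 ?_⟩, rfl⟩
          rw [← himg]; exact ⟨q, hq, rfl⟩
        · right
          have : b = !(c 0) := by
            cases b <;> cases hc0 : c 0 <;> simp_all
          subst this
          exact ⟨q, rfl⟩
      have h2 := closure_mono hsub hpc
      rw [closure_union, (ib_closed hK (c 0)).closure_image_eq,
        (ib_closed hK (!(c 0))).isClosed_range.closure_eq] at h2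
      rw [← himg] at hpB
      obtain ⟨q, hq, rfl⟩ := hpB
      rcases h2 with ⟨q', hq', he'⟩ | ⟨q', he'⟩
      · have := ib_inj _ he'
        subst this
        exact ⟨q', ⟨hq, hq'⟩, rfl⟩
      · have h3 : ib (c 0) q = top (good_Kw hK) :=
          ib_disj hK (b := c 0) (b' := !(c 0)) (by cases c 0 <;> simp) he'.symm
        have h4 : ib (c 0) q = f 0 := by
          rw [h3]
          show _ = ib (c 0) (φ 0 : Fan (K (c 0)))
          rw [φ0, ib_top]
        rw [h4, ← hfZ]
        exact ⟨0, h0Z, rfl⟩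

/-! ### The second derived set of the endpoints -/

lemma Dv_map {X Y : Type*} [TopologicalSpace X] [TopologicalSpace Y] {i : X → Y}
    (hi : Continuous i) (hinj : Function.Injective i) {A : Set X} {B : Set Y}
    (hAB : ∀ x ∈ A, i x ∈ B) {x : X} (hx : x ∈ Dv A) : i x ∈ Dv B := by
  intro U hU
  obtain ⟨y, hy, hyA, hyx⟩ := hx (i ⁻¹' U) (hi.continuousAt.preimage_mem_nhds hU)
  exact ⟨i y, hy, hAB y hyA, fun he => hyx (hinj he)⟩

/-- The complement of the piece `true`. -/
lemma Dv_local (hK : ∀ b, Good (K b)) {A : Set (Fan (Kw K))} {A' : Set (Fan (K false))}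
    (hA : ∀ q : Fan (K false), ib false q ∉ Set.range (ib (K := K) true) → ib false q ∈ A →
      q ∈ A') {q : Fan (K false)} (hq : ib false q ∉ Set.range (ib (K := K) true))
    (hx : ib false q ∈ Dv A) : q ∈ Dv A' := by
  intro U hU
  rw [(ib_closed hK false).isInducing.nhds_eq_comap, mem_comap] at hU
  obtain ⟨V, hV, hVU⟩ := hU
  have hO : (Set.range (ib (K := K) true))ᶜ ∈ 𝓝 (ib false q) :=
    (ib_closed hK true).isClosed_range.isOpen_compl.mem_nhds hq
  obtain ⟨z, ⟨hzV, hzO⟩, hzA, hzx⟩ := hx _ (inter_mem hV hO)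
  obtain ⟨b, w, rfl⟩ := exists_ib hK z
  cases b with
  | true => exact absurd ⟨w, rfl⟩ hzO
  | false => exact ⟨w, hVU hzV, hA w hzO hzA, fun he => hzx (by rw [he])⟩

lemma ramification_image {X Y : Type*} [TopologicalSpace X] [TopologicalSpace Y] (h : X ≃ₜ Y)
    {x : X} (hx : IsRamification x) : IsRamification (h x) := by
  obtain ⟨A₁, A₂, A₃, x₁, x₂, x₃, h1, h2, h3, h12, h13, h23⟩ := hx
  refine ⟨h '' A₁, h '' A₂, h '' A₃, h x₁, h x₂, h x₃, isArc_image h h1, isArc_image h h2,
    isArc_image h h3, ?_, ?_, ?_⟩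
  · rw [← image_inter h.injective, h12, image_singleton]
  · rw [← image_inter h.injective, h13, image_singleton]
  · rw [← image_inter h.injective, h23, image_singleton]

/-! ### The fan -/

/-- The weights of the two pieces. -/
noncomputable def ww (b : Bool) : St → ℝ := cond b psi2 psi1

/-- The two pieces. -/
noncomputable def KP (b : Bool) : Set (Cs × ℝ) := KK (ww b)

lemma good_KP (b : Bool) : Good (KP b) := by
  cases b
  · exact good wt1
  · exact good wt2

lemma epg_KP (b : Bool) : IsEPG (top (good_KP b)) Z3 := by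
  cases b
  · exact isEPG wt1
  · exact isEPG wt2

theorem not_homogeneous : ¬ EndpointHomogeneous (Fan (Kw KP)) := by
  intro hom
  have s0 : Sup z0 0 := fun n _ => rfl
  -- the endpoints
  have k1 : (z0, psi1 (st z0 0)) ∈ KP false := tip_mem wt1 s0
  have k2 : (z0, psi2 (st z0 0)) ∈ KP true := tip_mem wt2 s0
  have k3 : (z0, mA (st z0 0)) ∈ KP true := ma_mem wt2 s0
  set e1 : Fan (KP false) := pt z0 (psi1 (st z0 0)) k1 with he1
  set e2 : Fan (KP true) := pt z0 (psi2 (st z0 0)) k2 with he2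
  have E1 : IsEndpoint e1 := (endpoint_iff' wt1 _).2 ⟨z0, 0, s0, rfl⟩
  have E2 : IsEndpoint e2 := (endpoint_iff' wt2 _).2 ⟨z0, 0, s0, rfl⟩
  obtain ⟨h, hh⟩ := hom (ib true e2) (ib false e1) ((endpoint_ib good_KP _ _).2 E2)
    ((endpoint_ib good_KP _ _).2 E1)
  -- the point of the second derived set
  set x2 : Fan (KP true) := pt z0 (mA (st z0 0)) k3 with hx2
  have hD2 : x2 ∈ Dv (Dv (EE psi2)) := DD2 s0
  set E : Set (Fan (Kw KP)) := {e | IsEndpoint e} with hE
  have hDE : ib true x2 ∈ Dv (Dv E) := by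
    apply Dv_map (ib_cont true) (ib_inj true) _ hD2
    intro x hx
    apply Dv_map (ib_cont true) (ib_inj true) _ hx
    intro y hy
    exact (endpoint_ib good_KP true y).2 hy
  have hEh : ∀ x, h x ∈ E ↔ x ∈ E := fun x => endpoint_homeo h x
  have hD := Dv_homeo h hEh
  have hDD := Dv_homeo h hD
  have hhx : h (ib true x2) ∈ Dv (Dv E) := (hDD _).2 hDE
  -- the top is fixed
  have htop : h (top (good_Kw good_KP)) = top (good_Kw good_KP) :=
    no_triod (good_Kw good_KP) (ramification_image h (top_ramification (good_Kw good_KP)))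
  -- the blades
  have hp2 : 0 < psi2 (st z0 0) := wt2.pos _
  have hp1 : 0 < psi1 (st z0 0) := wt1.pos _
  have hm2 : (cn true z0, psi2 (st z0 0)) ∈ Kw KP := tip_mem wt2 s0
  have hm1 : (cn false z0, psi1 (st z0 0)) ∈ Kw KP := tip_mem wt1 s0
  have arc2 := blade_isArc (good_Kw good_KP) hp2 hm2
  have arc1 := isArc_image h arc2
  have h2 : pt (cn true z0) (psi2 (st z0 0)) hm2 = ib true e2 := (ib_pt true _).symm
  have h1 : ib false e1 = pt (cn false z0) (psi1 (st z0 0)) hm1 := ib_pt false _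
  rw [htop, h2, hh, h1] at arc1
  have huniq := arc_unique (good_Kw good_KP) hp1 hm1 arc1
  obtain ⟨v1, v2, v3⟩ := st_valid z0 0
  have hma := wt2.ma_pos _ _ _ v1 v2
  have hmaψ := (wt2.ma_lt _ _ _ v1 v2).trans (wt2.mb_lt _ _ _ v1 v2)
  have hx2B : h (ib true x2) ∈ (Subtype.val ⁻¹' ((fun u => pr (cn false z0, u)) ''
      Icc 0 (psi1 (st z0 0))) : Set (Fan (Kw KP))) := by
    rw [← huniq]
    refine ⟨ib true x2, ⟨mA (st z0 0), ⟨hma.le, hmaψ.le⟩, ?_⟩, rfl⟩
    rw [hx2, ib_pt]
    rfl
  obtain ⟨u, hu, hux⟩ := hx2B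
  have hum : (z0, u) ∈ KP false := (good_KP false).down z0 _ u (tip_mem wt1 s0) hu.1 hu.2
  set q : Fan (KP false) := pt z0 u hum with hq
  have hqx : h (ib true x2) = ib false q := by
    apply Subtype.ext
    rw [← hux]
    show pr (cn false z0, u) = Lb false (pr (z0, u))
    rw [Lb_pr]
  have hne : ib true x2 ≠ top (good_Kw good_KP) := by
    rw [hx2, ib_pt]
    exact pt_ne_top (good_Kw good_KP) hma.ne'
  have hne' : ib false q ≠ top (good_Kw good_KP) := by
    rw [← hqx]
    intro hc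
    exact hne (h.injective (hc.trans htop.symm))
  have hout : ∀ w : Fan (KP false), ib false w ≠ top (good_Kw good_KP) →
      ib false w ∉ Set.range (ib (K := KP) true) := by
    rintro w hw ⟨w', hw'⟩
    exact hw (ib_disj good_KP (b := false) (b' := true) (by simp) hw'.symm)
  rw [hqx] at hhx
  have hfin : q ∈ Dv (Dv (EE psi1)) := by
    refine Dv_local good_KP (A := Dv E) (A' := Dv (EE psi1)) ?_ (hout q hne') hhx
    intro w hw1 hw2
    refine Dv_local good_KP (A := E) (A' := EE psi1) ?_ hw1 hw2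
    intro w' _ hw'
    exact (endpoint_ib good_KP false w').1 hw'
  have := DD1 hfin
  apply hne'
  rw [this]
  exact ib_top good_KP false

/-- The set `{0, 1/3, 2/3} ⊆ [0,1]`. -/
def thirds : Set unitInterval := {t | (t : ℝ) = 0 ∨ (t : ℝ) = 1 / 3 ∨ (t : ℝ) = 2 / 3}

lemma thirds_eq : thirds = Z3 := by
  ext t
  constructor
  · rintro (h | h | h)
    · exact Or.inl (Subtype.ext h)
    · exact Or.inr (Or.inl (Subtype.ext h))
    · exact Or.inr (Or.inr (Subtype.ext h))
  · rintro (h | h | h)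
    · left; rw [h]
    · right; left; rw [h]
    · right; right; rw [h]

/-- **A smooth EPG fan which is not endpoint-homogeneous.** For `X = {0, 1/3, 2/3} ⊆ [0,1]` there
is a smooth `X`-EPG fan `F` (a subspace of the plane) which is not endpoint-homogeneous. -/
theorem result : ∃ (F : Set (ℝ × ℝ)) (t : F), IsFan F t ∧ IsSmooth t ∧ IsEPG t thirds ∧
    ¬ EndpointHomogeneous F := by
  rw [thirds_eq]
  exact ⟨Fan (Kw KP), top (good_Kw good_KP), isFan _, isSmooth _,
    epg_glue good_KP (Or.inl rfl) epg_KP, not_homogeneous⟩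

end Pool.Agent.Results.MP_0958cc_gt.NotHomogeneous
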